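import Pool.Agent.Helper65.KPV.St

/-!
# Project KP, chapter A part V, module PRM
-/

set_option autoImplicit false

namespace Pool.Agent.Helper8.KPV

open Pool.Agent.Helper65.KPV Pool.Agent.Helper5.KPA Pool.Agent.Helper52.KP

theorem hPRM : Pool.Agent.Helper65.KPV.StPRM := by
  intro h f h1 hmul c i hc
  let φ : ℂˣ →* Equiv.Perm (Fin h) :=
    { toFun := fun u =>
        { toFun := f u
          invFun := f ((u⁻¹ : ℂˣ) : ℂ)
          left_inv := fun j => by
            rw [← hmul _ _ _ (u⁻¹).ne_zero u.ne_zero, ← Units.val_mul, inv_mul_cancel,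
              Units.val_one, h1]
          right_inv := fun j => by
            rw [← hmul _ _ _ u.ne_zero (u⁻¹).ne_zero, ← Units.val_mul, mul_inv_cancel,
              Units.val_one, h1] }
      map_one' := by
        ext j
        show ((f ((1 : ℂˣ) : ℂ) j : Fin h) : ℕ) = j
        rw [Units.val_one, h1]
      map_mul' := fun u v => by
        ext j
        show ((f ((u * v : ℂˣ) : ℂ) j : Fin h) : ℕ) = (f (u : ℂ) (f (v : ℂ) j) : Fin h)
        rw [Units.val_mul, hmul _ _ _ u.ne_zero v.ne_zero] }
  have hN : 0 < Fintype.card (Equiv.Perm (Fin h)) := Fintype.card_pos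
  obtain ⟨c', hc'⟩ := IsAlgClosed.exists_pow_nat_eq c hN
  have hc0 : c' ≠ 0 := by
    rintro rfl
    rw [zero_pow hN.ne'] at hc'
    exact hc hc'.symm
  have h2 : φ (Units.mk0 c hc) = 1 := by
    have e : Units.mk0 c hc = Units.mk0 c' hc0 ^ Fintype.card (Equiv.Perm (Fin h)) := by
      ext
      simp [hc']
    rw [e, map_pow, pow_card_eq_one]
  have h3 := congrArg (fun σ : Equiv.Perm (Fin h) => σ i) h2
  exact h3

end Pool.Agent.Helper8.KPV
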